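import Pool.Agent.L0h14.CK.Defs

/-!
# Cycles of dimension one on varieties which are fibred over a curve
-/

universe u v w u' v'

open CategoryTheory

set_option autoImplicit false

namespace Pool.Agent.L0h14.DD

open Pool.Agent.L0h14.CK

variable {𝒱 : Type u} [Category.{v} 𝒱] [Preadditive 𝒱] [Linear ℚ 𝒱] {F : Type w} [Field F]

/-- The theory of correspondences over `k`, with the variety `pt = Spec k` and the unit `one` of its cohomology. The cycles of
codimension `i` on `X` are the elements of `gr pt X i`. -/
structure CycleTheory (𝒱 : Type u) [Category.{v} 𝒱] [Preadditive 𝒱] [Linear ℚ 𝒱] (F : Type w) [Field F] extends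
    CorrTheory 𝒱 F where
  pt : 𝒱
  one : H.obj pt
  dim_pt : dim pt = 0
  /-- numerically trivial cycles of codimension at most one (Matsusaka) and of dimension zero are homologically trivial -/
  matsusaka : ∀ (S : 𝒱) (i : ℤ), i ≤ 1 ∨ dim S ≤ i → ∀ w ∈ gr pt S i,
    (∀ d ∈ gr pt S (dim S - i), pair S (H.map d one) (H.map w one) = 0) → H.map w one = 0

/-- The cohomology class of a cycle. -/
def CycleTheory.cl (T : CycleTheory 𝒱 F) {X : 𝒱} (z : T.pt ⟶ X) : T.H.obj X := T.H.map z T.one

/-- A cycle of codimension `i` is numerically trivial if its intersection numbers with all cycles of complementary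
codimension are zero. -/
def CycleTheory.NumTriv (T : CycleTheory 𝒱 F) (X : 𝒱) (i : ℤ) (z : T.pt ⟶ X) : Prop :=
  ∀ d ∈ T.gr T.pt X (T.dim X - i), T.pair X (T.cl d) (T.cl z) = 0

/-- Numerical and homological equivalence coincide on `X`, in all codimensions. -/
def CycleTheory.ConjectureD (T : CycleTheory 𝒱 F) (X : 𝒱) : Prop :=
  ∀ (i : ℤ), ∀ z ∈ T.gr T.pt X i, T.NumTriv X i z → T.cl z = 0

/-- Numerical and homological equivalence coincide for the cycles of dimension one on `X`. -/
def CycleTheory.OneCycles (T : CycleTheory 𝒱 F) (X : 𝒱) : Prop :=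
  ∀ z ∈ T.gr T.pt X (T.dim X - 1), T.NumTriv X (T.dim X - 1) z → T.cl z = 0

/-- The relation between the correspondences over the function field `K` of a smooth projective curve `C` over `k` and the
correspondences over `k`. The objects of `𝒲` are the smooth projective varieties `A` over `K` together with a smooth
projective variety `model A` over `k` with a morphism to `C` whose generic fibre is `A`; the morphisms are the
correspondences of degree zero over `K`.

* `rel A B` consists of the pairs of the generic fibre and of the push-forward to `model A × model B` of the cycles `z` on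
the fibre product of the models over `C`, of the dimension which corresponds to correspondences of degree zero. It is
surjective on the first factor and compatible with compositions.
* `H1` is the first cohomology of the geometric generic fibre. Every `A` has a Picard projector `α ≫ β` which factors
through a curve `D` over `K` and acts on `H1` as the identity (`picard`; Murre).
* By the Leray spectral sequence the kernel `van A` of the restriction from `H^2(model A)` to the geometric generic fibre is, up
to classes of divisors supported on fibres, the cohomology group `H^1(C, R^1)`, and a relative correspondence which acts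
on the first cohomology of the geometric generic fibre as the identity acts on it as the identity (`leray`). -/
structure Spread (T : CorrTheory 𝒱 F) (𝒲 : Type u') [Category.{v'} 𝒲] where
  model : 𝒲 → 𝒱
  rel : ∀ A B : 𝒲, (A ⟶ B) → (model A ⟶ model B) → Prop
  H1 : 𝒲 ⥤ ModuleCat.{w} F
  van : ∀ A : 𝒲, Submodule F (T.H.obj (model A))
  lift : ∀ {A B : 𝒲} (f : A ⟶ B), ∃ g ∈ T.gr (model A) (model B) 0, rel A B f g
  comp : ∀ {A B D : 𝒲} {f : A ⟶ B} {f' : B ⟶ D} {g : model A ⟶ model B} {g' : model B ⟶ model D},
    rel A B f g → rel B D f' g' → rel A D (f ≫ f') (g ≫ g')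
  picard : ∀ A : 𝒲, ∃ (D : 𝒲) (α : A ⟶ D) (β : D ⟶ A), T.dim (model D) = 2 ∧ H1.map (α ≫ β) = 𝟙 (H1.obj A)
  leray : ∀ {A : 𝒲} (f : A ⟶ A), ∀ g ∈ T.gr (model A) (model A) 0, rel A A f g → H1.map f = 𝟙 (H1.obj A) →
    ∀ x ∈ T.deg (model A) 2, x ∈ van A → x - T.H.map g x ∈ T.div (model A)

/-- The second cohomology `H2 = H^2(Ā)(1)` of the geometric generic fibre of a variety `X` with a morphism to a curve, with
the action `act` of the Galois group `Γ` of `K`, the restriction `r`, the action `actX` on `H^2(X)(1)`, and the form
`(x, y) ↦ x ∪ y ∪ h^(n-3)` on `H2`, where `n = dim X` and `h` is the class of an ample line bundle on `X`. The field `k` is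
finitely generated over its prime field. -/
structure FibreData (T : CycleTheory 𝒱 F) (X : 𝒱) where
  Γ : Type
  H2 : Type w
  [addCommGroup : AddCommGroup H2]
  [module : Module F H2]
  r : T.H.obj X →ₗ[F] H2
  act : Γ → H2 → H2
  actX : Γ → T.H.obj X → T.H.obj X
  form : H2 →ₗ[F] H2 →ₗ[F] F

attribute [instance] FibreData.addCommGroup FibreData.module

section

variable {T : CycleTheory 𝒱 F} {X : 𝒱} (G : FibreData T X)

/-- The restriction of `x` in `H^2(X)` to the geometric generic fibre. -/
def FibreData.res (x : T.H.obj X) : G.H2 := G.r x

/-- The form on `H^2(Ā)(1)`. -/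
def FibreData.B (x y : G.H2) : F := G.form x y

/-- The compatibility of restriction, Galois action and intersection form; the Galois group acts bijectively. -/
structure FibreData.Equivariant : Prop where
  act_r : ∀ γ, ∀ x ∈ T.deg X 2, G.res (G.actX γ x) = G.act γ (G.res x)
  act_deg : ∀ γ, ∀ x ∈ T.deg X 2, G.actX γ x ∈ T.deg X 2
  act_surj : ∀ γ, ∀ x ∈ T.deg X 2, ∃ y ∈ T.deg X 2, G.actX γ y = x
  form_act : ∀ γ x y, G.B (G.act γ x) (G.act γ y) = G.B x y

/-- The classes of one-cycles over `k` are invariant under the Galois group. -/
def FibreData.Invariant : Prop :=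
  ∀ z ∈ T.gr T.pt X (T.dim X - 1), ∀ γ, ∀ x ∈ T.deg X 2, T.pair X (G.actX γ x) (T.cl z) = T.pair X x (T.cl z)

/-- The form is nondegenerate on the image of `H^2(X)`, the fixed part (`fixed`; theorem of the fixed part and
semisimplicity, Deligne), and on the classes of divisors of `X` in `H2` (`index`; Hodge index theorem). -/
structure FibreData.Nondegenerate : Prop where
  fixed : ∀ e ∈ T.deg X 2, (∀ x ∈ T.deg X 2, G.B (G.res x) (G.res e) = 0) → G.res e = 0
  index : ∀ e ∈ T.div X, (∀ d ∈ T.div X, G.B (G.res d) (G.res e) = 0) → G.res e = 0

/-- The Tate classes in the fixed part are algebraic: every element of the image of `H^2(X)(1)` in `H^2(Ā)(1)` which is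
invariant under the Galois group of `K` is a combination of classes of divisors. This holds if the Tate conjecture for divisors
holds for the generic fibre `A`, and if the classes of divisors span the image of `H^2(X)`. -/
def FibreData.Tate : Prop :=
  ∀ e ∈ T.deg X 2, (∀ γ, G.act γ (G.res e) = G.res e) → ∃ d ∈ T.div X, G.res d = G.res e

/-- The properties of the data `G` of the generic fibre of `X`, `van` being the kernel of the restriction to the geometric
generic fibre. -/
structure FibreData.Good (van : Submodule F (T.H.obj X)) : Prop where
  equivariant : G.Equivariant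
  invariant : G.Invariant
  nondegenerate : G.Nondegenerate
  kernel : ∀ x ∈ T.deg X 2, G.res x = 0 → x ∈ van

end

/-- `X` is a direct factor of `Y` by correspondences of degree zero, of the same dimension. This is so if `Y → X` is dominant
and `dim X = dim Y`. -/
def CycleTheory.Factor (T : CycleTheory 𝒱 F) (X Y : 𝒱) : Prop :=
  T.dim X = T.dim Y ∧ ∃ u ∈ T.gr X Y 0, ∃ v ∈ T.gr Y X 0, u ≫ v = 𝟙 X

end Pool.Agent.L0h14.DD
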