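import Pool.Agent.L0h14.DD.Defs

/-!
# Numerical and homological equivalence of cycles of dimension one
-/

universe u v w u' v'

open CategoryTheory

set_option autoImplicit false

namespace Pool.Agent.L0h14.DD

open Pool.Agent.L0h14.CK

variable {𝒱 : Type u} [Category.{v} 𝒱] [Preadditive 𝒱] [Linear ℚ 𝒱] {F : Type w} [Field F]

theorem deg_eq_top (T : CorrTheory 𝒱 F) {P : 𝒱} (hP : T.dim P = 0) (x : T.H.obj P) : x ∈ T.deg P 0 := by
  have h : (⨆ j, T.deg P j) ≤ T.deg P 0 := by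
    refine iSup_le fun j => ?_
    by_cases hj : j = 0
    · rw [hj]
    · rw [T.deg_bot P j (by omega)]
      exact bot_le
  rw [T.deg_top P] at h
  exact h Submodule.mem_top

theorem div_le (T : CorrTheory 𝒱 F) (X : 𝒱) : T.div X ≤ T.deg X 2 := by
  refine Submodule.span_le.mpr ?_
  rintro _ ⟨P, z, x, hP, hz, rfl⟩
  have := T.deg_map hz x (deg_eq_top T hP x)
  simpa using this

theorem map_comp_apply' (T : CorrTheory 𝒱 F) {X Y Z : 𝒱} (f : X ⟶ Y) (g : Y ⟶ Z) (x : T.H.obj X) :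
    T.H.map (f ≫ g) x = T.H.map g (T.H.map f x) := by
  rw [T.H.map_comp]
  rfl

variable (T : CycleTheory 𝒱 F)

theorem cl_comp {X Y : 𝒱} (z : T.pt ⟶ X) (f : X ⟶ Y) : T.cl (z ≫ f) = T.H.map f (T.cl z) :=
  map_comp_apply' T.toCorrTheory z f T.one

theorem cl_deg {X : 𝒱} {i : ℤ} {z : T.pt ⟶ X} (hz : z ∈ T.gr T.pt X i) : T.cl z ∈ T.deg X (2 * i) := by
  have := T.deg_map hz T.one (deg_eq_top T.toCorrTheory T.dim_pt T.one)
  rwa [zero_add] at this

/-- A numerically trivial cycle of dimension one is orthogonal to the span of the classes of divisors. -/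
theorem pair_div {X : 𝒱} {z : T.pt ⟶ X} (hz : z ∈ T.gr T.pt X (T.dim X - 1)) (h : T.NumTriv X (T.dim X - 1) z) :
    ∀ x ∈ T.div X, T.pair X x (T.cl z) = 0 := by
  have hle : T.div X ≤ LinearMap.ker ((T.pair X).flip (T.cl z)) := by
    refine Submodule.span_le.mpr ?_
    rintro _ ⟨P, d, x, hP, hd, rfl⟩
    show T.pair X (T.H.map d x) (T.cl z) = 0
    rw [T.pair_tp, ← cl_comp]
    have h1 : z ≫ T.tp d ∈ T.gr T.pt P 0 := by
      have := T.comp_gr hz (T.tp_gr hd)
      rw [hP] at this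
      have e : T.dim X - 1 + (1 + 0 - T.dim X) = 0 := by ring
      rwa [e] at this
    have h2 : T.cl (z ≫ T.tp d) = 0 := by
      refine T.matsusaka P 0 (Or.inl (by norm_num)) _ h1 fun t ht => ?_
      show T.pair P (T.cl t) (T.cl (z ≫ T.tp d)) = 0
      rw [cl_comp, ← T.pair_tp, ← cl_comp]
      refine h _ ?_
      rw [hP] at ht
      have := T.comp_gr ht hd
      have e : (0 : ℤ) - 0 + 1 = T.dim X - (T.dim X - 1) := by ring
      rwa [e] at this
    rw [h2, map_zero]
  exact fun x hx => hle hx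

/-- A numerically trivial cycle of dimension one is orthogonal to the classes which vanish on the geometric generic fibre. -/
theorem pair_van {𝒲 : Type u'} [Category.{v'} 𝒲] (Φ : Spread T.toCorrTheory 𝒲) (A : 𝒲)
    {z : T.pt ⟶ Φ.model A} (hz : z ∈ T.gr T.pt (Φ.model A) (T.dim (Φ.model A) - 1))
    (h : T.NumTriv (Φ.model A) (T.dim (Φ.model A) - 1) z) :
    ∀ x ∈ T.deg (Φ.model A) 2, x ∈ Φ.van A → T.pair (Φ.model A) x (T.cl z) = 0 := by
  intro x hx hxv
  obtain ⟨D, α, β, hD, hH⟩ := Φ.picard A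
  obtain ⟨a, ha, har⟩ := Φ.lift α
  obtain ⟨b, hb, hbr⟩ := Φ.lift β
  have hP0 : a ≫ b ∈ T.gr (Φ.model A) (Φ.model A) 0 := by
    have := T.comp_gr ha hb
    rwa [add_zero] at this
  have h1 := Φ.leray (α ≫ β) (a ≫ b) hP0 (Φ.comp har hbr) hH x hx hxv
  have h2 := pair_div T hz h _ h1
  rw [map_sub, LinearMap.sub_apply, sub_eq_zero] at h2
  rw [h2, map_comp_apply', T.pair_tp, ← cl_comp]
  have h3 : z ≫ T.tp b ∈ T.gr T.pt (Φ.model D) 1 := by
    have := T.comp_gr hz (T.tp_gr hb)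
    rw [hD] at this
    have e : T.dim (Φ.model A) - 1 + (0 + 2 - T.dim (Φ.model A)) = 1 := by ring
    rwa [e] at this
  have h4 : T.cl (z ≫ T.tp b) = 0 := by
    refine T.matsusaka (Φ.model D) 1 (Or.inl le_rfl) _ h3 fun d hd => ?_
    show T.pair (Φ.model D) (T.cl d) (T.cl (z ≫ T.tp b)) = 0
    rw [cl_comp, ← T.pair_tp, ← cl_comp]
    refine h _ ?_
    rw [hD] at hd
    have := T.comp_gr hd hb
    have e : (2 : ℤ) - 1 + 0 = T.dim (Φ.model A) - (T.dim (Φ.model A) - 1) := by ring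
    rwa [e] at this
  rw [h4, map_zero]

/-- Linear algebra: a functional on a space `V` which vanishes on the kernel of `r` is given by an element of the image, if the
form on the image is nondegenerate. -/
theorem exists_rep {V W : Type*} [AddCommGroup V] [Module F V] [AddCommGroup W] [Module F W] [FiniteDimensional F V]
    (r : V →ₗ[F] W) (B : W →ₗ[F] W →ₗ[F] F) (hB : ∀ e, (∀ x, B (r x) (r e) = 0) → r e = 0) (φ : V →ₗ[F] F)
    (hφ : ∀ x, r x = 0 → φ x = 0) : ∃ e, ∀ x, φ x = B (r x) (r e) := by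
  let R := LinearMap.range r
  let ψ : R →ₗ[F] Module.Dual F R :=
    { toFun := fun e => (B.flip e.1).comp R.subtype
      map_add' := fun e e' => by
        ext x
        simp
      map_smul' := fun c e => by
        ext x
        simp }
  have hψ : ∀ e x : R, ψ e x = B x.1 e.1 := fun e x => rfl
  have hinj : Function.Injective ψ := by
    rw [injective_iff_map_eq_zero]
    rintro ⟨_, e, rfl⟩ he
    refine Subtype.ext (hB e fun x => ?_)
    have := congrArg (fun f => f ⟨r x, x, rfl⟩) he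
    exact this
  have hsurj : Function.Surjective ψ :=
    (LinearMap.injective_iff_surjective_of_finrank_eq_finrank (Subspace.dual_finrank_eq).symm).mp hinj
  obtain ⟨s, hs⟩ := r.rangeRestrict.exists_rightInverse_of_surjective r.range_rangeRestrict
  obtain ⟨⟨_, e, rfl⟩, he⟩ := hsurj (φ.comp s)
  refine ⟨e, fun x => ?_⟩
  have h1 := congrArg (fun f => f (r.rangeRestrict x)) he
  have h2 : B (r x) (r e) = φ (s (r.rangeRestrict x)) := h1
  rw [h2]
  have h3 : r (x - s (r.rangeRestrict x)) = 0 := by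
    have := congrArg (fun f => ((f (r.rangeRestrict x) : R) : W)) hs
    have h4 : r (s (r.rangeRestrict x)) = r x := this
    rw [map_sub, h4, sub_self]
  have h4 := hφ _ h3
  rw [map_sub, sub_eq_zero] at h4
  exact h4

/-- Numerical and homological equivalence coincide for cycles of dimension one. -/
theorem oneCycles_of_fibration {𝒲 : Type u'} [Category.{v'} 𝒲] (Φ : Spread T.toCorrTheory 𝒲) (A : 𝒲)
    (G : FibreData T (Φ.model A)) (hG : G.Equivariant) (hI : G.Invariant) (hN : G.Nondegenerate)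
    (hker : ∀ x ∈ T.deg (Φ.model A) 2, G.r x = 0 → x ∈ Φ.van A) (hT : G.Tate) : T.OneCycles (Φ.model A) := by
  intro z hz h
  have hfin := T.finite (Φ.model A)
  have act_r : ∀ (γ : G.Γ) (x : T.H.obj (Φ.model A)), x ∈ T.deg (Φ.model A) 2 → G.r (G.actX γ x) = G.act γ (G.r x) :=
    fun γ x hx => hG.act_r γ x hx
  have form_act : ∀ (γ : G.Γ) (x y : G.H2), G.form (G.act γ x) (G.act γ y) = G.form x y := hG.form_act
  have pair_act : ∀ (γ : G.Γ), ∀ x ∈ T.deg (Φ.model A) 2,
    T.pair (Φ.model A) (G.actX γ x) (T.cl z) = T.pair (Φ.model A) x (T.cl z) := fun γ x hx => hI z hz γ x hx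
  have fixed : ∀ e ∈ T.deg (Φ.model A) 2, (∀ x ∈ T.deg (Φ.model A) 2, G.form (G.r x) (G.r e) = 0) → G.r e = 0 := hN.fixed
  have index : ∀ e ∈ T.div (Φ.model A), (∀ d ∈ T.div (Φ.model A), G.form (G.r d) (G.r e) = 0) → G.r e = 0 := hN.index
  have tate : ∀ e ∈ T.deg (Φ.model A) 2, (∀ γ, G.act γ (G.r e) = G.r e) → ∃ d ∈ T.div (Φ.model A), G.r d = G.r e := hT
  set V := T.deg (Φ.model A) 2 with hV
  obtain ⟨⟨e, he⟩, hrep⟩ := exists_rep (F := F) (G.r.comp V.subtype) G.form
    (fun e h => fixed e.1 e.2 fun x hx => h ⟨x, hx⟩) (((T.pair (Φ.model A)).flip (T.cl z)).comp V.subtype)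
    (fun x hx => pair_van T Φ A hz h x.1 x.2 (hker x.1 x.2 hx))
  have hrep' : ∀ x ∈ V, T.pair (Φ.model A) x (T.cl z) = G.form (G.r x) (G.r e) := fun x hx => hrep ⟨x, hx⟩
  have hinv : ∀ γ, G.act γ (G.r e) = G.r e := by
    intro γ
    have h1 : G.r (G.actX γ e - e) = 0 := by
      refine fixed _ (V.sub_mem (hG.act_deg γ e he) he) fun y hy => ?_
      obtain ⟨x, hx, rfl⟩ := hG.act_surj γ y hy
      have h4 : G.form (G.r (G.actX γ x)) (G.act γ (G.r e)) = G.form (G.r x) (G.r e) := by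
        rw [act_r γ _ hx, form_act]
      rw [map_sub, map_sub, act_r γ e he, h4, ← hrep' x hx, ← hrep' _ hy, pair_act γ x hx, sub_self]
    rw [map_sub, act_r γ e he, sub_eq_zero] at h1
    exact h1
  obtain ⟨d, hd, hde⟩ := tate e he hinv
  have hd0 : G.r d = 0 := by
    refine index d hd fun d' hd' => ?_
    rw [hde, ← hrep' d' (div_le T.toCorrTheory _ hd')]
    exact pair_div T hz h d' hd'
  refine T.pair_nondeg (Φ.model A) (2 * (T.dim (Φ.model A) - 1)) _ (cl_deg T hz) fun x hx => ?_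
  have e2 : 2 * T.dim (Φ.model A) - 2 * (T.dim (Φ.model A) - 1) = 2 := by ring
  rw [e2] at hx
  rw [hrep' x hx, ← hde, hd0, map_zero]

theorem conjectureD_of_oneCycles {X : 𝒱} (hd : T.dim X = 3) (h : T.OneCycles X) : T.ConjectureD X := by
  intro i z hz hn
  have h1 : (i ≤ 1 ∨ T.dim X ≤ i) ∨ i = T.dim X - 1 := by omega
  rcases h1 with h1 | rfl
  · exact T.matsusaka X i h1 z hz hn
  · exact h z hz hn

/-- Retracts, such as varieties which are dominated by varieties of the same dimension. -/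
theorem oneCycles_of_retract {X Y : 𝒱} (hd : T.dim X = T.dim Y) (u : X ⟶ Y) (hu : u ∈ T.gr X Y 0) (v : Y ⟶ X)
    (huv : u ≫ v = 𝟙 X) (hY : T.OneCycles Y) : T.OneCycles X := by
  intro z hz h
  have h1 : z ≫ u ∈ T.gr T.pt Y (T.dim Y - 1) := by
    have := T.comp_gr hz hu
    rwa [add_zero, hd] at this
  have h2 : T.cl (z ≫ u) = 0 := by
    refine hY _ h1 fun d hd' => ?_
    have h5 := T.pair_tp (T.tp u) (T.cl d) (T.cl z)
    rw [T.tp_tp] at h5
    show T.pair Y (T.cl d) (T.cl (z ≫ u)) = 0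
    rw [cl_comp, ← h5, ← cl_comp]
    refine h _ ?_
    have := T.comp_gr hd' (T.tp_gr hu)
    have e : T.dim Y - (T.dim Y - 1) + (0 + T.dim X - T.dim Y) = T.dim X - (T.dim X - 1) := by
      rw [hd]
      ring
    rwa [e] at this
  have h3 : T.cl z = T.H.map v (T.cl (z ≫ u)) := by
    rw [← cl_comp, Category.assoc, huv, Category.comp_id]
  rw [h3, h2, map_zero]

theorem main {𝒲 : Type u'} [Category.{v'} 𝒲] (Φ : Spread T.toCorrTheory 𝒲) (A : 𝒲)
    (G : FibreData T (Φ.model A)) (hG : G.Good (Φ.van A)) (hT : G.Tate) (X : 𝒱) (hX : T.Factor X (Φ.model A)) :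
    T.OneCycles X ∧ (T.dim X = 3 → T.ConjectureD X) := by
  obtain ⟨hd, u, hu, v, -, huv⟩ := hX
  have h := oneCycles_of_retract T hd u hu v huv
    (oneCycles_of_fibration T Φ A G hG.equivariant hG.invariant hG.nondegenerate hG.kernel hT)
  exact ⟨h, fun h3 => conjectureD_of_oneCycles T h3 h⟩

end Pool.Agent.L0h14.DD
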